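import Pool.Agent.Y738.PE.Stm

/-! # Regions are reduced to boxes (helper70) -/

set_option autoImplicit false

open scoped BigOperators ComplexConjugate Classical

noncomputable section

namespace Pool.Agent.Y70.PE

open Pool.Agent.Y738.PE

section contr

variable {P Q A : Type} [Fintype P] [Fintype Q] [Fintype A] (pos : P → Q)

/-- The matrix `B` acting on the part `pos` of `Q`. -/
def extB (B : (P → A) → (P → A) → ℂ) (σ τ : Q → A) : ℂ :=
  if (∀ q, (∀ p, pos p ≠ q) → σ q = τ q) then B (fun p => σ (pos p)) (fun p => τ (pos p)) else 0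

/-- Splitting of a configuration. -/
def splt (hpos : Function.Injective pos) : (Q → A) ≃ (P → A) × ({q // ∀ p, pos p ≠ q} → A) where
  toFun σ := (fun p => σ (pos p), fun q => σ q.1)
  invFun x := fun q => if h : ∃ p, pos p = q then x.1 h.choose else x.2 ⟨q, fun p hp => h ⟨p, hp⟩⟩
  left_inv σ := by
    funext q
    by_cases h : ∃ p, pos p = q
    · simp only [dif_pos h]
      rw [h.choose_spec]
    · simp only [dif_neg h]
  right_inv x := by
    obtain ⟨x, y⟩ := x
    apply Prod.ext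
    · funext p
      have h : ∃ p', pos p' = pos p := ⟨p, rfl⟩
      simp only [dif_pos h]
      rw [hpos h.choose_spec]
    · funext q
      have h : ¬ ∃ p, pos p = q.1 := fun ⟨p, hp⟩ => q.2 p hp
      simp only [dif_neg h]

theorem contr_ext [Fintype (P → A)] [Fintype (Q → A)] (hpos : Function.Injective pos)
    (B : (P → A) → (P → A) → ℂ) (hB : Contr B) : Contr (extB pos B) := by
  intro f
  obtain ⟨e, he⟩ : ∃ e : (Q → A) ≃ (P → A) × ({q // ∀ p, pos p ≠ q} → A), e = splt pos hpos :=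
    ⟨_, rfl⟩
  have he1 : ∀ σ, e σ = (fun p => σ (pos p), fun q => σ q.1) := by
    intro σ
    rw [he]
    rfl
  have e1 : ∀ x y p, e.symm (x, y) (pos p) = x p := by
    intro x y p
    have h := he1 (e.symm (x, y))
    rw [Equiv.apply_symm_apply] at h
    exact (congrFun (congrArg Prod.fst h) p).symm
  have e2 : ∀ x y (q : {q // ∀ p, pos p ≠ q}), e.symm (x, y) q.1 = y q := by
    intro x y q
    have h := he1 (e.symm (x, y))
    rw [Equiv.apply_symm_apply] at h
    exact (congrFun (congrArg Prod.snd h) q).symm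
  have key : ∀ x y x' y', extB pos B (e.symm (x, y)) (e.symm (x', y')) =
      if y = y' then B x x' else 0 := by
    intro x y x' y'
    unfold extB
    have h1 : (∀ q, (∀ p, pos p ≠ q) → e.symm (x, y) q = e.symm (x', y') q) ↔ y = y' := by
      constructor
      · intro h
        funext q
        have := h q.1 q.2
        rwa [e2, e2] at this
      · rintro rfl q hq
        have h3 := e2 x y ⟨q, hq⟩
        have h4 := e2 x' y ⟨q, hq⟩
        exact h3.trans h4.symm
    by_cases hy : y = y'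
    · rw [if_pos (h1.2 hy), if_pos hy]
      congr 1
      · funext p
        exact e1 _ _ _
      · funext p
        exact e1 _ _ _
    · rw [if_neg (fun h => hy (h1.1 h)), if_neg hy]
  have hn : ∀ F : (Q → A) → ℂ, nrm F = ∑ y, nrm (fun x => F (e.symm (x, y))) := by
    intro F
    unfold nrm
    rw [← Equiv.sum_comp e.symm, Fintype.sum_prod_type_right]
  rw [hn, hn f]
  refine Finset.sum_le_sum fun y _ => ?_
  have h2 : (fun x => ∑ τ, extB pos B (e.symm (x, y)) τ * f τ) =
      fun x => ∑ x', B x x' * f (e.symm (x', y)) := by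
    funext x
    rw [← Equiv.sum_comp e.symm, Fintype.sum_prod_type]
    refine Finset.sum_congr rfl fun x' _ => ?_
    rw [Finset.sum_eq_single y]
    · rw [key, if_pos rfl]
    · intro y' _ hy'
      rw [key, if_neg (Ne.symm hy'), zero_mul]
    · intro h
      exact absurd (Finset.mem_univ _) h
  rw [h2]
  exact hB _

end contr

section geo

variable {d L : ℕ} [NeZero L]

theorem cast_inj {r : ℕ} (hr : r ≤ L) {a b : ℕ} (ha : a < r) (hb : b < r)
    (h : (a : ZMod L) = (b : ZMod L)) : a = b := by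
  have h1 := congrArg ZMod.val h
  rwa [ZMod.val_natCast_of_lt (ha.trans_le hr), ZMod.val_natCast_of_lt (hb.trans_le hr)] at h1

theorem put_box {r : ℕ} (hr : r ≤ L) (s : Conf d L) (v : Site L) (τ : BConf d r) :
    box r (put s v τ) v = τ := by
  funext q
  unfold box put
  have h1 : (v.1 + ((q.1 : ℕ) : ZMod L) - v.1).val = q.1 := by
    rw [add_sub_cancel_left, ZMod.val_natCast_of_lt (q.1.2.trans_le hr)]
  have h2 : (v.2 + ((q.2 : ℕ) : ZMod L) - v.2).val = q.2 := by
    rw [add_sub_cancel_left, ZMod.val_natCast_of_lt (q.2.2.trans_le hr)]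
  simp only [h1, h2]
  rw [dif_pos ⟨q.1.2, q.2.2⟩]

end geo

theorem region : StmRegion := by
  intro d R
  obtain ⟨t, ht⟩ : ∃ t : ℕ, t = ∑ p ∈ R, (p.1.natAbs + p.2.natAbs) := ⟨_, rfl⟩
  have hbd : ∀ p ∈ R, p.1.natAbs + p.2.natAbs ≤ t := by
    intro p hp
    rw [ht]
    exact Finset.single_le_sum (f := fun p : ℤ × ℤ => p.1.natAbs + p.2.natAbs)
      (fun _ _ => Nat.zero_le _) hp
  refine ⟨2 * t + 1, (-(t : ℤ), -(t : ℤ)), by omega, ?_⟩
  intro B hB
  let pos : R → Fin (2 * t + 1) × Fin (2 * t + 1) := fun p =>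
    (⟨(p.1.1 + t).toNat, by have := hbd p.1 p.2; omega⟩,
      ⟨(p.1.2 + t).toNat, by have := hbd p.1 p.2; omega⟩)
  have hp1 : ∀ p : R, (((pos p).1 : ℕ) : ℤ) = p.1.1 + t := by
    intro p
    have := hbd p.1 p.2
    change (((p.1.1 + t).toNat : ℕ) : ℤ) = p.1.1 + t
    omega
  have hp2 : ∀ p : R, (((pos p).2 : ℕ) : ℤ) = p.1.2 + t := by
    intro p
    have := hbd p.1 p.2
    change (((p.1.2 + t).toNat : ℕ) : ℤ) = p.1.2 + t
    omega
  have hinj : Function.Injective pos := by
    intro p p' h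
    have h1 := hp1 p
    have h2 := hp2 p
    rw [h] at h1 h2
    rw [hp1] at h1
    rw [hp2] at h2
    apply Subtype.ext
    apply Prod.ext
    · omega
    · omega
  refine ⟨extB pos B, contr_ext pos hinj B hB, ?_⟩
  intro L _ hr Ψ v
  obtain ⟨v', hv'⟩ : ∃ v' : Site L, v' = (v.1 + ((-(t : ℤ), -(t : ℤ)) : ℤ × ℤ).1,
    v.2 + ((-(t : ℤ), -(t : ℤ)) : ℤ × ℤ).2) := ⟨_, rfl⟩
  have hpv : ∀ p : R, (v.1 + ((p : ℤ × ℤ).1 : ZMod L), v.2 + ((p : ℤ × ℤ).2 : ZMod L)) =
      (v'.1 + (((pos p).1 : ℕ) : ZMod L), v'.2 + (((pos p).2 : ℕ) : ZMod L)) := by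
    intro p
    have h1 : (((pos p).1 : ℕ) : ZMod L) = ((p.1.1 + t : ℤ) : ZMod L) := by
      rw [← hp1 p]
      push_cast
      rfl
    have h2 : (((pos p).2 : ℕ) : ZMod L) = ((p.1.2 + t : ℤ) : ZMod L) := by
      rw [← hp2 p]
      push_cast
      rfl
    rw [h1, h2, hv']
    push_cast
    apply Prod.ext
    · change v.1 + (p.1.1 : ZMod L) = v.1 + -(t : ZMod L) + ((p.1.1 : ZMod L) + (t : ZMod L))
      ring
    · change v.2 + (p.1.2 : ZMod L) = v.2 + -(t : ZMod L) + ((p.1.2 : ZMod L) + (t : ZMod L))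
      ring
  have hres : ∀ s : Conf d L, (fun p => box (2 * t + 1) s v' (pos p)) = res R s v := by
    intro s
    funext p
    unfold box res
    rw [hpv p]
  have hin : ∀ w : Site L, ∀ h : (w.1 - v'.1).val < 2 * t + 1 ∧ (w.2 - v'.2).val < 2 * t + 1,
      (v'.1 + (((w.1 - v'.1).val : ℕ) : ZMod L), v'.2 + (((w.2 - v'.2).val : ℕ) : ZMod L)) = w := by
    intro w _
    rw [ZMod.natCast_zmod_val, ZMod.natCast_zmod_val]
    apply Prod.ext
    · exact add_sub_cancel _ _
    · exact add_sub_cancel _ _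
  have hboxin : ∀ q : Fin (2 * t + 1) × Fin (2 * t + 1),
      (v'.1 + ((q.1 : ℕ) : ZMod L) - v'.1).val = q.1 ∧
      (v'.2 + ((q.2 : ℕ) : ZMod L) - v'.2).val = q.2 := by
    intro q
    rw [add_sub_cancel_left, add_sub_cancel_left, ZMod.val_natCast_of_lt (q.1.2.trans_le hr),
      ZMod.val_natCast_of_lt (q.2.2.trans_le hr)]
    exact ⟨rfl, rfl⟩
  rw [← hv']
  unfold expecR expec
  refine Finset.sum_congr rfl fun s _ => ?_
  rw [← Finset.sum_filter]
  have hR : ∑ τ : BConf d (2 * t + 1), conj (Ψ s) * extB pos B (box (2 * t + 1) s v') τ *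
      Ψ (put s v' τ) = ∑ τ ∈ Finset.univ.filter (fun τ : BConf d (2 * t + 1) =>
        ∀ q, (∀ p, pos p ≠ q) → box (2 * t + 1) s v' q = τ q),
        conj (Ψ s) * B (res R s v) (fun p => τ (pos p)) * Ψ (put s v' τ) := by
    rw [Finset.sum_filter]
    refine Finset.sum_congr rfl fun τ _ => ?_
    unfold extB
    by_cases h : ∀ q, (∀ p, pos p ≠ q) → box (2 * t + 1) s v' q = τ q
    · rw [if_pos h, if_pos h, hres]
    · rw [if_neg h, if_neg h, mul_zero, zero_mul]
  rw [hR]
  refine Finset.sum_bij' (fun s' _ => box (2 * t + 1) s' v') (fun τ _ => put s v' τ) ?_ ?_ ?_ ?_ ?_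
  · intro s' hs'
    rw [Finset.mem_filter] at hs' ⊢
    refine ⟨Finset.mem_univ _, fun q hq => ?_⟩
    refine hs'.2 _ fun p hp h => ?_
    rw [hpv ⟨p, hp⟩] at h
    refine hq ⟨p, hp⟩ ?_
    have h1 := add_left_cancel (congrArg Prod.fst h)
    have h2 := add_left_cancel (congrArg Prod.snd h)
    apply Prod.ext
    · exact Fin.ext (cast_inj hr (Fin.is_lt _) (Fin.is_lt _) h1.symm)
    · exact Fin.ext (cast_inj hr (Fin.is_lt _) (Fin.is_lt _) h2.symm)
  · intro τ hτ
    rw [Finset.mem_filter] at hτ ⊢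
    refine ⟨Finset.mem_univ _, fun w hw => ?_⟩
    by_cases h : (w.1 - v'.1).val < 2 * t + 1 ∧ (w.2 - v'.2).val < 2 * t + 1
    · have h1 : put s v' τ w = τ (⟨(w.1 - v'.1).val, h.1⟩, ⟨(w.2 - v'.2).val, h.2⟩) := by
        unfold put
        rw [dif_pos h]
      rw [h1, ← hτ.2]
      · unfold box
        change s w = s (v'.1 + (((w.1 - v'.1).val : ℕ) : ZMod L),
          v'.2 + (((w.2 - v'.2).val : ℕ) : ZMod L))
        rw [hin w h]
      · intro p hp
        refine hw p.1 p.2 ?_
        rw [hpv p, hp]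
        exact (hin w h).symm
    · unfold put
      rw [dif_neg h]
  · intro s' hs'
    rw [Finset.mem_filter] at hs'
    funext w
    by_cases h : (w.1 - v'.1).val < 2 * t + 1 ∧ (w.2 - v'.2).val < 2 * t + 1
    · unfold put
      rw [dif_pos h]
      change s' (v'.1 + (((w.1 - v'.1).val : ℕ) : ZMod L),
          v'.2 + (((w.2 - v'.2).val : ℕ) : ZMod L)) = s' w
      rw [hin w h]
    · unfold put
      rw [dif_neg h]
      refine hs'.2 w fun p hp hw => h ?_
      rw [hw, hpv ⟨p, hp⟩]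
      obtain ⟨h1, h2⟩ := hboxin (pos ⟨p, hp⟩)
      constructor
      · change (v'.1 + (((pos ⟨p, hp⟩).1 : ℕ) : ZMod L) - v'.1).val < 2 * t + 1
        rw [h1]
        exact Fin.is_lt _
      · change (v'.2 + (((pos ⟨p, hp⟩).2 : ℕ) : ZMod L) - v'.2).val < 2 * t + 1
        rw [h2]
        exact Fin.is_lt _
  · intro τ _
    exact put_box hr s v' τ
  · intro s' hs'
    rw [Finset.mem_filter] at hs'
    have h1 : put s v' (box (2 * t + 1) s' v') = s' := by
      funext w
      by_cases h : (w.1 - v'.1).val < 2 * t + 1 ∧ (w.2 - v'.2).val < 2 * t + 1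
      · unfold put
        rw [dif_pos h]
        change s' (v'.1 + (((w.1 - v'.1).val : ℕ) : ZMod L),
            v'.2 + (((w.2 - v'.2).val : ℕ) : ZMod L)) = s' w
        rw [hin w h]
      · unfold put
        rw [dif_neg h]
        refine hs'.2 w fun p hp hw => h ?_
        rw [hw, hpv ⟨p, hp⟩]
        obtain ⟨h1, h2⟩ := hboxin (pos ⟨p, hp⟩)
        constructor
        · change (v'.1 + (((pos ⟨p, hp⟩).1 : ℕ) : ZMod L) - v'.1).val < 2 * t + 1
          rw [h1]
          exact Fin.is_lt _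
        · change (v'.2 + (((pos ⟨p, hp⟩).2 : ℕ) : ZMod L) - v'.2).val < 2 * t + 1
          rw [h2]
          exact Fin.is_lt _
    rw [h1, hres]

end Pool.Agent.Y70.PE
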